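import Pool.Agent.Helper25.GF.Goals

/-!
# Packet GF-ABC (MP_766b49_co)
-/

set_option autoImplicit false

namespace Pool.Agent.Helper95.GF

open Finset Pool.Agent.Helper25.GF

theorem kk_succ (I : Finset ℕ) (M : ℕ) : kk I (M + 1) = kk I M + if M ∈ I then 1 else 0 := by
  unfold kk
  by_cases h : M ∈ I
  · rw [if_pos h]
    have : I.filter (· < M + 1) = insert M (I.filter (· < M)) := by
      ext x; simp only [mem_filter, mem_insert]
      constructor
      · rintro ⟨h1, h2⟩
        rcases Nat.lt_succ_iff_lt_or_eq.1 h2 with h3 | h3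
        · exact Or.inr ⟨h1, h3⟩
        · exact Or.inl h3
      · rintro (h1 | ⟨h1, h2⟩)
        · subst h1; exact ⟨h, Nat.lt_succ_self _⟩
        · exact ⟨h1, Nat.lt_succ_of_lt h2⟩
    rw [this, card_insert_of_notMem (by simp)]
  · rw [if_neg h, add_zero]
    congr 1
    ext x; simp only [mem_filter]
    constructor
    · rintro ⟨h1, h2⟩
      rcases Nat.lt_succ_iff_lt_or_eq.1 h2 with h3 | h3
      · exact ⟨h1, h3⟩
      · subst h3; exact absurd h1 h
    · rintro ⟨h1, h2⟩
      exact ⟨h1, Nat.lt_succ_of_lt h2⟩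

theorem kk_le (I : Finset ℕ) (M : ℕ) : kk I M ≤ M := by
  unfold kk
  calc (I.filter (· < M)).card ≤ (range M).card := by
        apply card_le_card
        intro x hx
        simp only [mem_filter] at hx
        exact mem_range.2 hx.2
    _ = M := card_range M

theorem sum_succ (I : Finset ℕ) (M : ℕ) (hM : 0 < M) :
    ∑ t ∈ I.filter (fun t => 0 < t ∧ t < M + 1), (1 : ℝ) / t =
      ∑ t ∈ I.filter (fun t => 0 < t ∧ t < M), (1 : ℝ) / t + if M ∈ I then (1 : ℝ) / M else 0 := by
  by_cases h : M ∈ I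
  · rw [if_pos h]
    have : I.filter (fun t => 0 < t ∧ t < M + 1) =
        insert M (I.filter (fun t => 0 < t ∧ t < M)) := by
      ext x; simp only [mem_filter, mem_insert]
      constructor
      · rintro ⟨h1, h2, h3⟩
        rcases Nat.lt_succ_iff_lt_or_eq.1 h3 with h4 | h4
        · exact Or.inr ⟨h1, h2, h4⟩
        · exact Or.inl h4
      · rintro (h1 | ⟨h1, h2, h3⟩)
        · subst h1; exact ⟨h, hM, Nat.lt_succ_self _⟩
        · exact ⟨h1, h2, Nat.lt_succ_of_lt h3⟩
    rw [this, sum_insert (by simp), add_comm]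
  · rw [if_neg h, add_zero]
    congr 1
    ext x; simp only [mem_filter]
    constructor
    · rintro ⟨h1, h2, h3⟩
      rcases Nat.lt_succ_iff_lt_or_eq.1 h3 with h4 | h4
      · exact ⟨h1, h2, h4⟩
      · subst h4; exact absurd h1 h
    · rintro ⟨h1, h2, h3⟩
      exact ⟨h1, h2, Nat.lt_succ_of_lt h3⟩

theorem key (I : Finset ℕ) (n : ℕ) :
    ∑ t ∈ I.filter (fun t => 0 < t ∧ t < n + 2), (1 : ℝ) / t ≤
      (kk I (n + 2) : ℝ) / (n + 1) + ∑ t ∈ Ico 2 (n + 2), (kk I t : ℝ) / (t : ℝ) ^ 2 +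
        (1 - 1 / (n + 1)) := by
  induction n with
  | zero =>
    have h1 := sum_succ I 1 one_pos
    have h0 : I.filter (fun t => 0 < t ∧ t < 1) = ∅ := by
      ext x; simp; omega
    rw [h0, sum_empty, zero_add] at h1
    have h2 : kk I 2 = kk I 1 + if 1 ∈ I then 1 else 0 := kk_succ I 1
    simp only [Nat.zero_add] 
    rw [show (1 + 1 : ℕ) = 2 from rfl] at h1
    rw [h1, h2]
    push_cast
    have h3 : (0 : ℝ) ≤ kk I 1 := Nat.cast_nonneg _
    split_ifs <;> simp
  | succ n ih =>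
    rw [show n + 1 + 2 = (n + 2) + 1 from rfl, sum_succ I (n + 2) (by omega),
      sum_Ico_succ_top (by omega), kk_succ I (n + 2)]
    have hk : ((kk I (n + 2) : ℕ) : ℝ) ≤ n + 2 := by exact_mod_cast kk_le I (n + 2)
    have hn : (0 : ℝ) ≤ n := Nat.cast_nonneg _
    set K : ℝ := (kk I (n + 2) : ℝ) with hK
    set e : ℝ := if n + 2 ∈ I then (1 : ℝ) else 0 with he
    have e1 : (if n + 2 ∈ I then (1 : ℝ) / ((n + 2 : ℕ) : ℝ) else 0) = e / (n + 2) := by
      rw [he]; split_ifs <;> push_cast <;> simp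
    have e2 : (((kk I (n + 2) + if n + 2 ∈ I then 1 else 0 : ℕ)) : ℝ) = K + e := by
      rw [he, hK]; push_cast; rfl
    rw [e1, e2]
    push_cast
    have h4 : K / (n + 1) + (1 - 1 / (n + 1)) + e / (n + 2) ≤
        (K + e) / (n + 1 + 1) + K / (n + 2) ^ 2 + (1 - 1 / (n + 1 + 1)) := by
      have h5 : (K + e) / ((n : ℝ) + 1 + 1) + K / (n + 2) ^ 2 + (1 - 1 / ((n : ℝ) + 1 + 1)) -
          (K / (n + 1) + (1 - 1 / (n + 1)) + e / (n + 2)) =
          ((n + 2) - K) / ((n + 2) ^ 2 * (n + 1)) := by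
        have h6 : (n : ℝ) + 1 ≠ 0 := by positivity
        have h7 : (n : ℝ) + 2 ≠ 0 := by positivity
        rw [show (n : ℝ) + 1 + 1 = n + 2 by ring]
        field_simp
        ring
      have h8 : 0 ≤ ((n + 2 : ℝ) - K) / ((n + 2) ^ 2 * (n + 1)) :=
        div_nonneg (by linarith) (by positivity)
      linarith
    linarith

/-- **ABC** -/
theorem abc : Pool.Agent.Helper25.GF.ABC := by
  intro I N hI
  have hpos : 0 ≤ ∑ t ∈ Ico 2 N, (kk I t : ℝ) / (t : ℝ) ^ 2 :=
    sum_nonneg fun t _ => by positivity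
  rcases Nat.lt_or_ge N 2 with h | h
  · have : I.filter (0 < ·) = ∅ := by
      ext x; simp only [mem_filter, notMem_empty, iff_false, not_and]
      intro hx
      have := mem_range.1 (hI hx)
      omega
    unfold Wt
    rw [this, sum_empty]
    linarith
  · obtain ⟨n, rfl⟩ := Nat.exists_eq_add_of_le' h
    have h1 := key I n
    have h2 : I.filter (0 < ·) = I.filter (fun t => 0 < t ∧ t < n + 2) := by
      ext x; simp only [mem_filter]
      constructor
      · rintro ⟨h1, h2⟩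
        exact ⟨h1, h2, mem_range.1 (hI h1)⟩
      · rintro ⟨h1, h2, _⟩
        exact ⟨h1, h2⟩
    unfold Wt
    rw [h2]
    have hn : (0 : ℝ) ≤ n := Nat.cast_nonneg _
    have hk : ((kk I (n + 2) : ℕ) : ℝ) ≤ n + 2 := by exact_mod_cast kk_le I (n + 2)
    have h3 : (kk I (n + 2) : ℝ) / (n + 1) ≤ 2 := by
      rw [div_le_iff₀ (by positivity)]
      linarith
    have h4 : (0 : ℝ) ≤ 1 / (n + 1) := by positivity
    linarith

end Pool.Agent.Helper95.GF
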